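import Pool.Agent.OMF.Stmts

set_option autoImplicit false

/-! Squad OMF: FIN and COR with real exponents. -/

namespace Pool.Agent.OMF.H20P

open Finset Pool.Agent.GTO

/-- FIN with real exponents -/
theorem fin_real (fin : FinStmt) (X : Set (ℝ × ℝ)) (hfin : X.Finite) (hX : ¬ Collinear ℝ X) :
    ({x | OM.Omissible X x}.ncard : ℝ) ≤ X.ncard / 3 +
      5300 * ((X.ncard : ℝ) * {L ∈ OM.Spanned X | (X ∩ L).ncard = 2}.ncard) ^ (2 / 5 : ℝ) := by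
  have h1 := fin X hfin hX
  obtain ⟨n, hn⟩ : ∃ n : ℕ, n = X.ncard := ⟨_, rfl⟩
  obtain ⟨m, hm⟩ : ∃ m : ℕ, m = {x | OM.Omissible X x}.ncard := ⟨_, rfl⟩
  obtain ⟨t, htt⟩ : ∃ t : ℕ, t = {L ∈ OM.Spanned X | (X ∩ L).ncard = 2}.ncard := ⟨_, rfl⟩
  rw [← hn, ← hm, ← htt] at h1
  rw [← hn, ← hm, ← htt]
  obtain ⟨y, hy⟩ : ∃ y : ℝ, y = ((n : ℝ) * t) ^ (2 / 5 : ℝ) := ⟨_, rfl⟩
  have hnt : (0 : ℝ) ≤ (n : ℝ) * t := by positivity
  have hy0 : 0 ≤ y := by rw [hy]; positivity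
  have hy5 : y ^ 5 = ((n : ℝ) * t) ^ 2 := by
    rw [hy, ← Real.rpow_natCast, ← Real.rpow_mul hnt, ← Real.rpow_natCast]
    norm_num
  rw [← hy]
  rcases le_or_gt (3 * m) n with h | h
  · have h' : (3 : ℝ) * m ≤ n := by exact_mod_cast h
    linarith
  · have hDr : (((3 * m - n : ℕ) : ℝ)) = 3 * m - n := by
      rw [Nat.cast_sub h.le]
      push_cast
      ring
    have h2 : ((3 * m - n : ℕ) : ℝ) ^ 5 ≤ 10 ^ 21 * ((n : ℝ) ^ 2 * (t : ℝ) ^ 2) := by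
      exact_mod_cast h1
    have h3 : ((3 * m - n : ℕ) : ℝ) ^ 5 ≤ (15900 * y) ^ 5 := by
      calc ((3 * m - n : ℕ) : ℝ) ^ 5 ≤ 10 ^ 21 * ((n : ℝ) ^ 2 * (t : ℝ) ^ 2) := h2
        _ = 10 ^ 21 * y ^ 5 := by rw [hy5]; ring
        _ ≤ 15900 ^ 5 * y ^ 5 := by
            apply mul_le_mul_of_nonneg_right (by norm_num) (by positivity)
        _ = (15900 * y) ^ 5 := by ring
    have h4 : ((3 * m - n : ℕ) : ℝ) ≤ 15900 * y :=
      le_of_pow_le_pow_left₀ (by norm_num) (by positivity) h3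
    rw [hDr] at h4
    linarith

/-- COR with real exponents -/
theorem cor_real (cor : CorStmt) (X : Set (ℝ × ℝ)) (hfin : X.Finite) (hX : ¬ Collinear ℝ X) :
    ({x | OM.Omissible X x}.ncard : ℝ) ≤ X.ncard - (X.ncard : ℝ) ^ (3 / 4 : ℝ) / 180000 := by
  have h1 := cor X hfin hX
  have hsub : {x | OM.Omissible X x} ⊆ X := fun x hx => hx.1
  have heq : {x ∈ X | ¬ OM.Omissible X x} = X \ {x | OM.Omissible X x} := by
    ext x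
    rfl
  have hcard : {x ∈ X | ¬ OM.Omissible X x}.ncard + {x | OM.Omissible X x}.ncard = X.ncard := by
    rw [heq]
    exact Set.ncard_sdiff_add_ncard_of_subset hsub hfin
  obtain ⟨n, hn⟩ : ∃ n : ℕ, n = X.ncard := ⟨_, rfl⟩
  obtain ⟨m, hm⟩ : ∃ m : ℕ, m = {x | OM.Omissible X x}.ncard := ⟨_, rfl⟩
  obtain ⟨b, hb⟩ : ∃ b : ℕ, b = {x ∈ X | ¬ OM.Omissible X x}.ncard := ⟨_, rfl⟩
  rw [← hn, ← hb] at h1
  rw [← hb, ← hm, ← hn] at hcard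
  rw [← hn, ← hm]
  have hbr : (b : ℝ) + m = n := by exact_mod_cast hcard
  have h2 : (n : ℝ) ^ 3 ≤ 10 ^ 21 * (b : ℝ) ^ 4 := by exact_mod_cast h1
  obtain ⟨y, hy⟩ : ∃ y : ℝ, y = (n : ℝ) ^ (3 / 4 : ℝ) := ⟨_, rfl⟩
  have hn0 : (0 : ℝ) ≤ n := Nat.cast_nonneg _
  have hy0 : 0 ≤ y := by rw [hy]; positivity
  have hy4 : y ^ 4 = (n : ℝ) ^ 3 := by
    rw [hy, ← Real.rpow_natCast, ← Real.rpow_mul hn0, ← Real.rpow_natCast]
    norm_num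
  rw [← hy]
  have h3 : y ^ 4 ≤ (180000 * (b : ℝ)) ^ 4 := by
    calc y ^ 4 = (n : ℝ) ^ 3 := hy4
      _ ≤ 10 ^ 21 * (b : ℝ) ^ 4 := h2
      _ ≤ 180000 ^ 4 * (b : ℝ) ^ 4 := by
          apply mul_le_mul_of_nonneg_right (by norm_num) (by positivity)
      _ = (180000 * (b : ℝ)) ^ 4 := by ring
  have h4 : y ≤ 180000 * (b : ℝ) := le_of_pow_le_pow_left₀ (by norm_num) (by positivity) h3
  linarith

end Pool.Agent.OMF.H20P
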