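import Pool.Agent.OMF.Stmts

set_option autoImplicit false

/-! Squad OMF, row PSC. -/

namespace Pool.Agent.OMF.H20P

open Finset Pool.Agent.GTO

lemma cramer (x p b q : V) : dt x p b • q = dt q p b • x + dt x q b • p + dt x p q • b := by
  funext i
  fin_cases i <;>
    simp only [dt, Pi.add_apply, Pi.smul_apply, smul_eq_mul, Fin.zero_eta, Fin.mk_one,
      Fin.reduceFinMk] <;> ring

lemma coords {x v B : V} (hD : dt x v B ≠ 0) (w : V) :
    ∃ α β γ : ℝ, w = α • x + β • v + γ • B := by
  refine ⟨(dt x v B)⁻¹ * dt w v B, (dt x v B)⁻¹ * dt x w B, (dt x v B)⁻¹ * dt x v w, ?_⟩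
  have h := cramer x v B w
  have h2 : w = (dt x v B)⁻¹ • (dt x v B • w) := by
    rw [smul_smul, inv_mul_cancel₀ hD, one_smul]
  refine h2.trans ?_
  rw [h, smul_add, smul_add, smul_smul, smul_smul, smul_smul]

lemma det1 (x v B : V) (s h κ α β γ : ℝ) :
    dt x (s • (v + h • B + (κ * h ^ 2) • x)) (α • x + β • v + γ • B) =
      s * (γ - h * β) * dt x v B := by
  simp only [dt, Pi.add_apply, Pi.smul_apply, smul_eq_mul]
  ring

lemma det2 (x v B : V) (s s' m j κ α β γ : ℝ) :
    dt (s • (v + m • B + (κ * m ^ 2) • x)) (s' • (v + j • B + (κ * j ^ 2) • x))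
      (α • x + β • v + γ • B) =
      s * s' * (κ * m ^ 2 * (γ - j * β) - κ * j ^ 2 * γ + j * α + m * κ * j ^ 2 * β - m * α) *
        dt x v B := by
  simp only [dt, Pi.add_apply, Pi.smul_apply, smul_eq_mul]
  ring

lemma det3 (τ x v B : V) (s s' m n κ α β γ α' β' γ' : ℝ) :
    dt (α • x + β • v + γ • B) (α' • x + β' • v + γ' • B)
      (cr τ (cr (s • (v + m • B + (κ * m ^ 2) • x)) (s' • (v + n • B + (κ * n ^ 2) • x)))) =
      s * s' * (((ip τ v + n * ip τ B + κ * n ^ 2 * ip τ x) *
          (κ * m ^ 2 * (β * γ' - γ * β') - (α * γ' - γ * α') + m * (α * β' - β * α'))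
        - (ip τ v + m * ip τ B + κ * m ^ 2 * ip τ x) *
          (κ * n ^ 2 * (β * γ' - γ * β') - (α * γ' - γ * α') + n * (α * β' - β * α'))) *
        dt x v B) := by
  simp only [dt, cr, ip, Pi.add_apply, Pi.smul_apply, smul_eq_mul, Matrix.cons_val_zero,
    Matrix.cons_val_one, Matrix.cons_val]
  ring

lemma cr_same (s s' : ℝ) (u : V) : cr (s • u) (s' • u) = 0 := by
  funext i
  fin_cases i <;> simp [cr] <;> ring

theorem psc (_bas : BasStmt) (par : ParStmt) : PscStmt := by
  intro e x g g' p p' w w' hN hx hg hg' hp hp' c1 c2 c3 c4 c5 c6 c7 c8 c9 c10 d1 d2 d3 d4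
  obtain ⟨v, B, κ, hκ, hD, hτv, hτB, hτx, H⟩ := par e x g hN hx hg c1
  obtain ⟨sg', m, hsg, eg⟩ := H g hg c1
  obtain ⟨sh, n, hsh, eg'⟩ := H g' hg' c2
  obtain ⟨sp, i, hsp, ep⟩ := H p hp c3
  obtain ⟨sq, j, hsq, ep'⟩ := H p' hp' c4
  obtain ⟨α, β, γ, ew⟩ := coords hD w
  obtain ⟨α', β', γ', ew'⟩ := coords hD w'
  have hmj : j - m ≠ 0 := by
    intro h0
    have : j = m := by linarith
    apply c7
    rw [eg, ep', this]
    exact cr_same _ _ _
  have hni : i - n ≠ 0 := by
    intro h0
    have : i = n := by linarith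
    apply c8
    rw [eg', ep, this]
    exact cr_same _ _ _
  have e1 : γ = i * β := by
    rw [ep, ew, det1] at d1
    rcases mul_eq_zero.mp d1 with h | h
    · rcases mul_eq_zero.mp h with h | h
      · exact absurd h hsp
      · linarith
    · exact absurd h hD
  have e3 : γ' = j * β' := by
    rw [ep', ew', det1] at d3
    rcases mul_eq_zero.mp d3 with h | h
    · rcases mul_eq_zero.mp h with h | h
      · exact absurd h hsq
      · linarith
    · exact absurd h hD
  have e2 : α = κ * β * (i * (m + j) - m * j) := by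
    rw [eg, ep', ew, det2] at d2
    rcases mul_eq_zero.mp d2 with h | h
    · rcases mul_eq_zero.mp h with h | h
      · rcases mul_eq_zero.mp h with h | h
        · exact absurd h hsg
        · exact absurd h hsq
      · subst e1
        have h2 : (j - m) * (α - κ * β * (i * (m + j) - m * j)) = 0 := by
          rw [← h]; ring
        rcases mul_eq_zero.mp h2 with h3 | h3
        · exact absurd h3 hmj
        · linarith
    · exact absurd h hD
  have e4 : α' = κ * β' * (j * (n + i) - n * i) := by
    rw [eg', ep, ew', det2] at d4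
    rcases mul_eq_zero.mp d4 with h | h
    · rcases mul_eq_zero.mp h with h | h
      · rcases mul_eq_zero.mp h with h | h
        · exact absurd h hsh
        · exact absurd h hsp
      · subst e3
        have h2 : (i - n) * (α' - κ * β' * (j * (n + i) - n * i)) = 0 := by
          rw [← h]; ring
        rcases mul_eq_zero.mp h2 with h3 | h3
        · exact absurd h3 hni
        · linarith
    · exact absurd h hD
  rw [ew, ew', eg, eg', det3, hτB, hτx, e1, e2, e3, e4]
  ring

end Pool.Agent.OMF.H20P
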