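import Pool.Agent.Helper38_GTO.Main
import Pool.Agent.Helper77_OMF.CNT
import Pool.Agent.Helper46_OMF.BPR
import Pool.Agent.Helper27_OMF.MSB
import Pool.Agent.Helper10_OMF.RN2
import Pool.Agent.Helper89_OMF.PAR
import Pool.Agent.Helper70_OMF.EX1
import Pool.Agent.Helper45_OMF.LNQ
import Pool.Agent.Helper85_OMF.TY1
import Pool.Agent.Helper21_OMF.TY2
import Pool.Agent.Helper50_OMF.TYP
import Pool.Agent.Helper98_OMF.RCI
import Pool.Agent.Helper81_OMF.FMX
import Pool.Agent.Helper35_OMF.CLS
import Pool.Agent.Helper77_OMF.UNC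
import Pool.Agent.Helper61_OMF.UNI
import Pool.Agent.Helper69_OMF.TN3
import Pool.Agent.Helper61_OMF.CONIC
import Pool.Agent.Helper24_OMF.STR
import Pool.Agent.Helper43_OMF.BRA
import Pool.Agent.Helper88_OMF.NUM
import Pool.Agent.Helper75_OMF.FIN
import Pool.Agent.Helper62_OMF.COR
import Pool.Agent.Helper20_OMF.PSC
import Pool.Agent.Helper20_OMF.DNS

set_option autoImplicit false

/-! Squad OMF: composition. -/

namespace Pool.Agent.OMF.H20

open Finset Pool.Agent.GTO
open scoped Classical

/-- the two inequalities -/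
theorem main : FinStmt ∧ CorStmt := by
  have bas := Pool.Agent.GTO.H52.bas
  have del := Pool.Agent.GTO.H56.del
  have cir := Pool.Agent.GTO.H09.cir bas del
  have tot := Pool.Agent.GTO.H56.tot bas cir
  have far := Pool.Agent.GTO.H56.farS
  have mel := Pool.Agent.GTO.H3.mel bas cir tot far
  have tri := Pool.Agent.GTO.H7.tri far
  have gdw := Pool.Agent.GTO.H60.gdw
  have nbr := Pool.Agent.GTO.H60.nbr
  have flp := Pool.Agent.GTO.H60.flpp
  have unq := Pool.Agent.GTO.H20.unq gdw
  have col := Pool.Agent.GTO.H62.col unq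
  have vtx := Pool.Agent.GTO.H30.vtx bas tot
  have cn6 := Pool.Agent.GTO.H27.cn6 nbr flp unq
  have cnn := Pool.Agent.GTO.H21.cnn cn6 col
  have lvx := Pool.Agent.GTO.H90.lvx bas cir gdw unq
  have dis := Pool.Agent.GTO.H7.dis
  have run := Pool.Agent.GTO.H44.runS bas gdw col dis unq flp
  have lnf := Pool.Agent.GTO.H56.lnf bas
  have cha := Pool.Agent.GTO.H56.cha lnf
  have cub := Pool.Agent.GTO.H18.cub_ bas cha
  have bz9 := Pool.Agent.GTO.H48.bz9
  have bz6 := Pool.Agent.GTO.H48.bz6
  have zzz := Pool.Agent.GTO.H97.zzz bas lnf bz9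
  have cnt := Pool.Agent.OMF.H77.cnt bas mel tri gdw nbr vtx unq
  have bpr := H46.bpr bas cnn lvx
  have msb := H27.msb bas cnt bpr
  have rn2 := H10.rn2 bas gdw col run
  have par := H89.par
  have psc := H20P.psc bas par
  have lnq := H45.lnq bas lnf
  have ex1 := H70.ex1 bas par lnq
  have ty1 := H85.ty1 bas lnq
  have ty2 := H21.ty2 bas
  have typ := H50.typ bas rn2 cub lnq ty1 ty2 ex1 psc
  have rci := H98.rci bas lnf lnq zzz bz6
  have fmx := H81.fmx
  have cls := H35.cls typ
  have unc := Pool.Agent.OMF.H77U.unc bas cls rci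
  have uni := H61.uni
  have tn3 := H69.tn3 bas lnq
  have con := H61.con bas lnf unc rci uni tn3
  have str := H24.str bas msb unc con rci
  have bra := H43.bra
  have num := H88.numRow
  have fin := H75.fin bra num str rci fmx cnt
  have cor := H62.cor bra fin
  exact ⟨fin, cor⟩

end Pool.Agent.OMF.H20
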